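import Pool.Agent.H41.FT.Fin

/-!
# The integral Fejes Tóth conjecture for `d = 2`

Among all Borel probability measures on the unit sphere of `ℝ³`, the average acute angle is largest
at the uniform measure on an orthonormal basis, where it equals `π / 3`.
-/

namespace Pool.Agent.Results.MP_6c69a9_co.DimTwo

open MeasureTheory

theorem onb_value (b : OrthonormalBasis (Fin 3) ℝ (EuclideanSpace ℝ (Fin 3))) :
    ∫ x, ∫ y, Real.arccos |@inner ℝ _ _ x y|
      ∂((3 : ENNReal)⁻¹ • ∑ i, Measure.dirac (b i)) ∂((3 : ENNReal)⁻¹ • ∑ i, Measure.dirac (b i)) =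
      Real.pi / 3 := by
  have key : ∀ f : EuclideanSpace ℝ (Fin 3) → ℝ,
      ∫ x, f x ∂((3 : ENNReal)⁻¹ • ∑ i, Measure.dirac (b i)) = (1 / 3) * ∑ i, f (b i) := by
    intro f
    rw [integral_smul_measure, integral_finset_sum_measure]
    · simp only [integral_dirac]
      rw [ENNReal.toReal_inv]
      simp
    · intro i _
      exact integrable_dirac (by simp)
  rw [key]
  simp only [key]
  have h : ∀ i j : Fin 3, (@inner ℝ _ _ (b i) (b j) : ℝ) = if i = j then 1 else 0 := fun i j =>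
    orthonormal_iff_ite.1 b.orthonormal i j
  simp only [h]
  simp [Fin.sum_univ_three]
  ring

/-- **The integral Fejes Tóth conjecture on `S²`**. -/
theorem result :
    (∀ μ : Measure (EuclideanSpace ℝ (Fin 3)), IsProbabilityMeasure μ →
      μ (Metric.sphere (0 : EuclideanSpace ℝ (Fin 3)) 1)ᶜ = 0 →
      ∫ x, ∫ y, Real.arccos |@inner ℝ _ _ x y| ∂μ ∂μ ≤ Real.pi / 3) ∧
    (∀ b : OrthonormalBasis (Fin 3) ℝ (EuclideanSpace ℝ (Fin 3)),
      ∫ x, ∫ y, Real.arccos |@inner ℝ _ _ x y|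
        ∂((3 : ENNReal)⁻¹ • ∑ i, Measure.dirac (b i)) ∂((3 : ENNReal)⁻¹ • ∑ i, Measure.dirac (b i)) =
        Real.pi / 3) := by
  refine ⟨fun μ hμ hS => ?_, onb_value⟩
  have h := H45FT.d2_of_cert3 H41FT.cert3 μ hμ hS
  have e : Real.pi / 2 * (2 / 3) = Real.pi / 3 := by ring
  rw [e] at h
  exact h

end Pool.Agent.Results.MP_6c69a9_co.DimTwo
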