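import Pool.Agent.H19.NF.Main
import Pool.Agent.H19.OG.Final

/-!
# Regular proper models over the integers of isotropic Grassmannians of odd quadratic forms over
number fields
-/

set_option autoImplicit false
open AlgebraicGeometry CategoryTheory

namespace Pool.Agent.Results.MP_4d1008_ag.IsotropicGrassmannians

/-- The `i`-th row of the `k × (k + m)` matrix `(1 | Y)` over `F[Y]`, where `1` is the identity
matrix of size `k` and `Y` is the generic `k × m` matrix of variables. -/
noncomputable def genericRow (F : Type) [Field F] {k m : ℕ} (i : Fin k) :
    Fin (k + m) → MvPolynomial (Fin k × Fin m) F :=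
  Fin.append (Pi.single i 1) (fun j => MvPolynomial.X (i, j))

/-- The ideal of `F[Y]` generated by the entries of the `k × k` matrix `(1 | Y) S (1 | Y)ᵀ`: it
expresses that the row space of `(1 | Y)` is totally isotropic for the symmetric bilinear form
with matrix `S`. -/
noncomputable def isotropyIdeal {F : Type} [Field F] {k m : ℕ}
    (S : Matrix (Fin (k + m)) (Fin (k + m)) F) : Ideal (MvPolynomial (Fin k × Fin m) F) :=
  Ideal.span (Set.range fun x : Fin k × Fin k =>
    ∑ c, ∑ d, MvPolynomial.C (S c d) * (genericRow F x.1 c * genericRow F x.2 d))

/-- The field of rational functions in `s` variables over the function field of the variety of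
`k`-dimensional totally isotropic subspaces for `S`: the ring of fractions of `R[t₁, …, t_s]`,
where `R = F[Y] / isotropyIdeal S` is the coordinate ring of the standard affine open subset. -/
abbrev IsotropicFunctionField {F : Type} [Field F] {k m : ℕ}
    (S : Matrix (Fin (k + m)) (Fin (k + m)) F) (s : ℕ) : Type :=
  FractionRing (MvPolynomial (Fin s) (MvPolynomial (Fin k × Fin m) F ⧸ isotropyIdeal S))

/-- Let `F` be a number field, let `S` be an invertible symmetric matrix of odd size `k + m` over
`F`, let `s` be a natural number, and let `X` be an integral scheme of finite type over `Spec ℤ`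
whose function field is the field of rational functions in `s` variables over the function field
of the variety of `k`-dimensional totally isotropic subspaces for `S`. Then there is an integral
scheme `X'`, proper over `Spec ℤ`, all of whose local rings are regular (Krull dimension equals
cotangent space dimension) and which has the same function field as `X`. -/
theorem result :
    ∀ (F : Type) [Field F] [NumberField F] (k m s : ℕ), Odd (k + m) →
      ∀ (S : Matrix (Fin (k + m)) (Fin (k + m)) F), S.IsSymm →
      S.det ≠ 0 → ∀ (X : Scheme.{0}) (_ : IsIntegral X) (f : X ⟶ Spec (CommRingCat.of ℤ)),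
      LocallyOfFiniteType f → QuasiCompact f →
      Nonempty (X.functionField ≃+* IsotropicFunctionField S s) →
      ∃ (X' : Scheme.{0}) (_ : IsIntegral X') (g : X' ⟶ Spec (CommRingCat.of ℤ)),
        IsProper g ∧
        (∀ x : X',
          (((Module.finrank (IsLocalRing.ResidueField (X'.presheaf.stalk x))
              (IsLocalRing.CotangentSpace (X'.presheaf.stalk x)) : ℕ∞)) : WithBot ℕ∞)
            = ringKrullDim (X'.presheaf.stalk x)) ∧
        Nonempty (X'.functionField ≃+* X.functionField) := by
  intro F _ _ k m s hodd S hS hdet X hX f _ _ ⟨e⟩
  have h1 : Pool.Agent.H19.OG.FracCharts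
      (MvPolynomial (Fin s) (MvPolynomial (Fin k × Fin m) F ⧸ isotropyIdeal S)) :=
    (Pool.Agent.H19.NF.fracCharts_CRing hodd S hS hdet).mvPolynomial s
  exact (h1.hasCharts e).exists_model

end Pool.Agent.Results.MP_4d1008_ag.IsotropicGrassmannians
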